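import Mathlib

/-!
Combinatorial core: counting disjoint pairs of sets which can be positive in a pattern of bounded
chain length and which vanishes on all pairs meeting in exactly one point.
-/

open Finset

namespace Pool.Agent.H525R2

/-- `boundF l n = ∑_{k<l} C(n,k) 2^(n-k)`. -/
def boundF (l n : ℕ) : ℕ := ∑ k ∈ range l, n.choose k * 2 ^ (n - k)

theorem boundF_zero (n : ℕ) : boundF 0 n = 0 := by simp [boundF]

theorem boundF_succ_zero (l : ℕ) : 1 ≤ boundF (l + 1) 0 := by
  unfold boundF
  rw [Finset.sum_range_succ']
  simp

theorem boundF_rec (l n : ℕ) : 2 * boundF l n + boundF (l - 1) n ≤ boundF l (n + 1) := by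
  rcases l with _ | l
  · simp [boundF]
  · simp only [Nat.add_sub_cancel]
    unfold boundF
    rw [Finset.sum_range_succ', Finset.sum_range_succ' (fun k => (n+1).choose k * 2 ^ (n + 1 - k)),
      mul_add, Finset.mul_sum]
    have h : ∀ k ∈ range l, 2 * (n.choose (k+1) * 2 ^ (n - (k+1))) + n.choose k * 2 ^ (n - k)
        = (n+1).choose (k+1) * 2 ^ (n + 1 - (k+1)) := by
      intro k _
      rw [Nat.choose_succ_succ]
      have e : n + 1 - (k+1) = n - k := by omega
      rw [e]
      by_cases hk : k + 1 ≤ n
      · have e2 : n - k = (n - (k+1)) + 1 := by omega
        rw [e2, pow_succ]; ring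
      · have : n.choose (k+1) = 0 := Nat.choose_eq_zero_of_lt (by omega)
        rw [this]; ring
    rw [← Finset.sum_congr rfl h, Finset.sum_add_distrib]
    simp only [Nat.choose_zero_right, one_mul, Nat.sub_zero, pow_succ]
    omega

/-- The pairs `(a_j,b_j)`, `j < m`, form a chain for the pattern `Pos`. -/
def IsChainSeq (Pos : Finset ℕ → Finset ℕ → Prop) (D : Finset (Finset ℕ × Finset ℕ)) (m : ℕ)
    (s : ℕ → Finset ℕ × Finset ℕ) : Prop :=
  (∀ j < m, s j ∈ D) ∧ ∀ j < m, ∀ i < j, ¬ Pos (s i).1 (s j).2

theorem count_bound (n : ℕ) : ∀ (l : ℕ) (Pos : Finset ℕ → Finset ℕ → Prop)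
    (D : Finset (Finset ℕ × Finset ℕ)),
    (∀ p ∈ D, p.1 ⊆ range n ∧ p.2 ⊆ range n ∧ Disjoint p.1 p.2 ∧ Pos p.1 p.2) →
    (∀ a b : Finset ℕ, a ⊆ range n → b ⊆ range n → (a ∩ b).card = 1 → ¬ Pos a b) →
    (∀ m s, IsChainSeq Pos D m s → m ≤ l) →
    D.card ≤ boundF l n := by
  classical
  induction n with
  | zero =>
    intro l Pos D h1 _ h3
    have hsub : D ⊆ {(∅, ∅)} := by
      intro p hp
      obtain ⟨ha, hb, _, _⟩ := h1 p hp
      simp only [range_zero, subset_empty] at ha hb
      simp only [mem_singleton]
      exact Prod.ext ha hb
    rcases D.eq_empty_or_nonempty with rfl | ⟨p, hp⟩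
    · simp
    · have hl : 1 ≤ l := by
        apply h3 1 (fun _ => p)
        refine ⟨fun j _ => hp, fun j hj i hi => ?_⟩
        omega
      obtain ⟨l, rfl⟩ : ∃ l', l = l' + 1 := ⟨l - 1, by omega⟩
      exact (card_le_card hsub).trans (by simpa using boundF_succ_zero l)
  | succ n ih =>
    intro l Pos D h1 h2 h3
    have hn : ∀ {a : Finset ℕ}, a ⊆ range n → n ∉ a := by
      intro a ha hmem
      have := ha hmem
      simp at this
    have hr : range n ⊆ range (n+1) := range_subset_range.2 (Nat.le_succ n)
    have hins : ∀ {a : Finset ℕ}, a ⊆ range n → insert n a ⊆ range (n+1) := by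
      intro a ha
      rw [insert_subset_iff]
      exact ⟨by simp, ha.trans hr⟩
    -- the ambient set of pairs in dimension n
    set U : Finset (Finset ℕ × Finset ℕ) := (range n).powerset ×ˢ (range n).powerset with hU
    set P := U.filter (fun p => p ∈ D) with hP
    set Q := U.filter (fun p => (insert n p.1, p.2) ∈ D) with hQ
    set R := U.filter (fun p => (p.1, insert n p.2) ∈ D) with hR
    have memU : ∀ p : Finset ℕ × Finset ℕ, p ∈ U ↔ p.1 ⊆ range n ∧ p.2 ⊆ range n := by
      intro p; simp [hU]
    -- cardinality of D
    have hDcard : D.card ≤ P.card + Q.card + R.card := by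
      have hcov : D ⊆ P ∪ Q.image (fun p => (insert n p.1, p.2)) ∪
          R.image (fun p => (p.1, insert n p.2)) := by
        intro p hp
        obtain ⟨ha, hb, hd, _⟩ := h1 p hp
        have er : ∀ {a : Finset ℕ}, a ⊆ range (n+1) → n ∉ a → a ⊆ range n := by
          intro a ha hna x hx
          have := ha hx
          simp only [mem_range] at this ⊢
          have hne : x ≠ n := fun h => hna (h ▸ hx)
          omega
        have er2 : ∀ {a : Finset ℕ}, a ⊆ range (n+1) → a.erase n ⊆ range n := by
          intro a ha x hx
          simp only [mem_erase] at hx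
          have := ha hx.2
          simp only [mem_range] at this ⊢
          omega
        by_cases hna : n ∈ p.1
        · have hnb : n ∉ p.2 := fun h => (Finset.disjoint_left.1 hd) hna h
          simp only [mem_union]
          left; right
          rw [mem_image]
          refine ⟨(p.1.erase n, p.2), ?_, ?_⟩
          · rw [hQ, mem_filter, memU]
            refine ⟨⟨er2 ha, er hb hnb⟩, ?_⟩
            simp only [insert_erase hna]
            exact hp
          · simp only [insert_erase hna]
        · by_cases hnb : n ∈ p.2
          · simp only [mem_union]
            right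
            rw [mem_image]
            refine ⟨(p.1, p.2.erase n), ?_, ?_⟩
            · rw [hR, mem_filter, memU]
              refine ⟨⟨er ha hna, er2 hb⟩, ?_⟩
              simp only [insert_erase hnb]
              exact hp
            · simp only [insert_erase hnb]
          · simp only [mem_union]
            left; left
            rw [hP, mem_filter, memU]
            exact ⟨⟨er ha hna, er hb hnb⟩, hp⟩
      calc D.card ≤ _ := card_le_card hcov
        _ ≤ (P ∪ Q.image (fun p => (insert n p.1, p.2))).card
            + (R.image (fun p => (p.1, insert n p.2))).card := card_union_le _ _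
        _ ≤ (P.card + (Q.image (fun p => (insert n p.1, p.2))).card)
            + (R.image (fun p => (p.1, insert n p.2))).card := by
              gcongr; exact card_union_le _ _
        _ ≤ P.card + Q.card + R.card :=
              add_le_add (add_le_add le_rfl card_image_le) card_image_le
    have hcomb : P.card + Q.card + R.card ≤ (P ∪ Q).card + (P ∪ R).card + (P ∩ Q ∩ R).card := by
      have e1 := card_union_add_card_inter P Q
      have e2 := card_union_add_card_inter P R
      have e3 : (P ∩ Q).card + (P ∩ R).card ≤ P.card + (P ∩ Q ∩ R).card := by
        have e4 := card_union_add_card_inter (P ∩ Q) (P ∩ R)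
        have e5 : ((P ∩ Q) ∪ (P ∩ R)).card ≤ P.card := by
          apply card_le_card
          intro x hx
          simp only [mem_union, mem_inter] at hx
          tauto
        have e6 : (P ∩ Q) ∩ (P ∩ R) = P ∩ Q ∩ R := by
          ext x; simp only [mem_inter]; tauto
        rw [e6] at e4
        omega
      omega
    -- the three bounds
    have b1 : (P ∪ Q).card ≤ boundF l n := by
      apply ih l (fun a b => Pos a b ∨ Pos (insert n a) b) (P ∪ Q)
      · intro p hp
        rw [mem_union] at hp
        rcases hp with hp | hp
        · rw [hP, mem_filter, memU] at hp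
          obtain ⟨_, _, hd, hpos⟩ := h1 _ hp.2
          exact ⟨hp.1.1, hp.1.2, hd, Or.inl hpos⟩
        · rw [hQ, mem_filter, memU] at hp
          obtain ⟨_, _, hd, hpos⟩ := h1 _ hp.2
          refine ⟨hp.1.1, hp.1.2, ?_, Or.inr hpos⟩
          exact Disjoint.mono_left (subset_insert _ _) hd
      · intro a b ha hb hab
        have hnb := hn hb
        rintro (h | h)
        · exact h2 a b (ha.trans hr) (hb.trans hr) hab h
        · refine h2 (insert n a) b (hins ha) (hb.trans hr) ?_ h
          rw [insert_inter_of_notMem hnb]
          exact hab
      · intro m s hs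
        have hex : ∀ j, ∃ a, j < m → ((a, (s j).2) ∈ D ∧ (a = (s j).1 ∨ a = insert n (s j).1)) := by
          intro j
          by_cases hj : j < m
          · have := hs.1 j hj
            rw [mem_union] at this
            rcases this with hp | hp
            · rw [hP, mem_filter] at hp
              exact ⟨(s j).1, fun _ => ⟨hp.2, Or.inl rfl⟩⟩
            · rw [hQ, mem_filter] at hp
              exact ⟨insert n (s j).1, fun _ => ⟨hp.2, Or.inr rfl⟩⟩
          · exact ⟨∅, fun h => absurd h hj⟩
        choose A hA using hex
        apply h3 m (fun j => (A j, (s j).2))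
        refine ⟨fun j hj => (hA j hj).1, fun j hj i hi => ?_⟩
        have hno := hs.2 j hj i hi
        simp only [not_or] at hno
        rcases (hA i (hi.trans hj)).2 with h | h
        · simp only [h]; exact hno.1
        · simp only [h]; exact hno.2
    have b2 : (P ∪ R).card ≤ boundF l n := by
      apply ih l (fun a b => Pos a b ∨ Pos a (insert n b)) (P ∪ R)
      · intro p hp
        rw [mem_union] at hp
        rcases hp with hp | hp
        · rw [hP, mem_filter, memU] at hp
          obtain ⟨_, _, hd, hpos⟩ := h1 _ hp.2
          exact ⟨hp.1.1, hp.1.2, hd, Or.inl hpos⟩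
        · rw [hR, mem_filter, memU] at hp
          obtain ⟨_, _, hd, hpos⟩ := h1 _ hp.2
          refine ⟨hp.1.1, hp.1.2, ?_, Or.inr hpos⟩
          exact Disjoint.mono_right (subset_insert _ _) hd
      · intro a b ha hb hab
        have hna := hn ha
        rintro (h | h)
        · exact h2 a b (ha.trans hr) (hb.trans hr) hab h
        · refine h2 a (insert n b) (ha.trans hr) (hins hb) ?_ h
          rw [inter_insert_of_notMem hna]
          exact hab
      · intro m s hs
        have hex : ∀ j, ∃ b, j < m → (((s j).1, b) ∈ D ∧ (b = (s j).2 ∨ b = insert n (s j).2)) := by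
          intro j
          by_cases hj : j < m
          · have := hs.1 j hj
            rw [mem_union] at this
            rcases this with hp | hp
            · rw [hP, mem_filter] at hp
              exact ⟨(s j).2, fun _ => ⟨hp.2, Or.inl rfl⟩⟩
            · rw [hR, mem_filter] at hp
              exact ⟨insert n (s j).2, fun _ => ⟨hp.2, Or.inr rfl⟩⟩
          · exact ⟨∅, fun h => absurd h hj⟩
        choose B hB using hex
        apply h3 m (fun j => ((s j).1, B j))
        refine ⟨fun j hj => (hB j hj).1, fun j hj i hi => ?_⟩
        have hno := hs.2 j hj i hi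
        simp only [not_or] at hno
        rcases (hB j hj).2 with h | h
        · simp only [h]; exact hno.1
        · simp only [h]; exact hno.2
    have b3 : (P ∩ Q ∩ R).card ≤ boundF (l - 1) n := by
      apply ih (l - 1) (fun a b => Pos a b ∨ Pos a (insert n b)) (P ∩ Q ∩ R)
      · intro p hp
        simp only [mem_inter] at hp
        have hp1 := hp.1.1
        rw [hP, mem_filter, memU] at hp1
        obtain ⟨_, _, hd, hpos⟩ := h1 _ hp1.2
        exact ⟨hp1.1.1, hp1.1.2, hd, Or.inl hpos⟩
      · intro a b ha hb hab
        have hna := hn ha
        rintro (h | h)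
        · exact h2 a b (ha.trans hr) (hb.trans hr) hab h
        · refine h2 a (insert n b) (ha.trans hr) (hins hb) ?_ h
          rw [inter_insert_of_notMem hna]
          exact hab
      · intro m s hs
        rcases Nat.eq_zero_or_pos m with rfl | hm
        · exact Nat.zero_le _
        -- unpack membership
        have hmem : ∀ j < m, ((s j).1 ⊆ range n ∧ (s j).2 ⊆ range n) ∧ s j ∈ D ∧
            (insert n (s j).1, (s j).2) ∈ D ∧ ((s j).1, insert n (s j).2) ∈ D := by
          intro j hj
          have := hs.1 j hj
          simp only [mem_inter] at this
          obtain ⟨⟨hp, hq⟩, hrr⟩ := this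
          rw [hP, mem_filter, memU] at hp
          rw [hQ, mem_filter] at hq
          rw [hR, mem_filter] at hrr
          exact ⟨hp.1, hp.2, hq.2, hrr.2⟩
        have hchain : m + 1 ≤ l := by
          apply h3 (m + 1) (fun j => if j + 1 < m then s j else if j + 1 = m then
            (insert n (s (m-1)).1, (s (m-1)).2) else ((s (m-1)).1, insert n (s (m-1)).2))
          have hm1 : m - 1 < m := by omega
          obtain ⟨⟨hra, hrb⟩, hD1, hD2, hD3⟩ := hmem (m-1) hm1
          refine ⟨?_, ?_⟩
          · intro j hj
            by_cases h1' : j + 1 < m
            · simp only [h1', if_true]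
              exact (hmem j (by omega)).2.1
            · by_cases h2' : j + 1 = m
              · simp only [h1', h2', if_false, if_true]
                simp only [lt_irrefl, if_false]
                exact hD2
              · simp only [h1', h2', if_false]
                exact hD3
          · intro j hj i hi
            by_cases h1' : j + 1 < m
            · have h1i : i + 1 < m := by omega
              simp only [h1', h1i, if_true]
              have := hs.2 j (by omega) i hi
              simp only [not_or] at this
              exact this.1
            · by_cases h2' : j + 1 = m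
              · have h1i : i + 1 < m := by omega
                simp only [h1', h2', h1i, if_false, if_true]
                simp only [lt_irrefl, if_false]
                have := hs.2 (m-1) hm1 i (by omega)
                simp only [not_or] at this
                exact this.1
              · simp only [h1', h2', if_false]
                by_cases h1i : i + 1 < m
                · simp only [h1i, if_true]
                  have := hs.2 (m-1) hm1 i (by omega)
                  simp only [not_or] at this
                  exact this.2
                · have h2i : i + 1 = m := by omega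
                  simp only [h2i, if_true]
                  simp only [lt_irrefl, if_false]
                  refine h2 _ _ (hins hra) (hins hrb) ?_
                  have hd := (h1 _ hD1).2.2.1
                  rw [← insert_inter_distrib, Finset.disjoint_iff_inter_eq_empty.1 hd]
                  simp
        omega
    calc D.card ≤ P.card + Q.card + R.card := hDcard
      _ ≤ (P ∪ Q).card + (P ∪ R).card + (P ∩ Q ∩ R).card := hcomb
      _ ≤ boundF l n + boundF l n + boundF (l-1) n := by gcongr
      _ = 2 * boundF l n + boundF (l-1) n := by ring
      _ ≤ boundF l (n+1) := boundF_rec l n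

end Pool.Agent.H525R2
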