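import Mathlib

/-!
# Exact mixed-binary conic programs for MAX-2-SAT: definitions

* 2-CNF formulas on `n` variables, the number of clauses falsified by an assignment and its minimum;
* the face height of a convex cone (longest chain of faces);
* mixed-binary conic programs and what it means that such a program solves MAX-2-SAT exactly.
-/

namespace Pool.Agent.H525R2

universe u v

/-! ## Formulas -/

/-- A literal over the variables `x_0,…,x_{n-1}`: the pair `(i,c)` stands for `x_i` if `c = true`
and for `¬ x_i` if `c = false`. -/
abbrev Literal (n : ℕ) := Fin n × Bool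

/-- A clause is a finite set of literals (read as their disjunction). -/
abbrev Clause (n : ℕ) := Finset (Literal n)

/-- A formula in conjunctive normal form is a finite set of clauses. -/
abbrev CNF (n : ℕ) := Finset (Clause n)

/-- Every clause has at most two literals. -/
def Is2CNF {n : ℕ} (φ : CNF n) : Prop := ∀ C ∈ φ, C.card ≤ 2

/-- The number of clauses of `φ` all of whose literals are false under the assignment `b`. -/
def numFalse {n : ℕ} (φ : CNF n) (b : Fin n → Bool) : ℕ :=
  (φ.filter (fun C => ∀ l ∈ C, b l.1 ≠ l.2)).card

/-- The least number of clauses of `φ` falsified by an assignment. -/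
noncomputable def minFalse {n : ℕ} (φ : CNF n) : ℕ := ⨅ b : Fin n → Bool, numFalse φ b

/-! ## Face height of cones -/

/-- `FaceHeightLE K h`: every strictly decreasing chain `F 0 ⊋ F 1 ⊋ ⋯ ⊋ F m` of faces of the
convex cone `K` has at most `h` steps (`m ≤ h`). Here `PointedCone ℝ V` is Mathlib's type of convex
cones of `V` containing `0` (not necessarily closed, possibly containing lines) and `IsFaceOf` is
Mathlib's notion of a face. -/
def FaceHeightLE {V : Type*} [AddCommGroup V] [Module ℝ V] (K : PointedCone ℝ V) (h : ℕ) : Prop :=
  ∀ (m : ℕ) (F : ℕ → PointedCone ℝ V),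
    (∀ i ≤ m, (F i).IsFaceOf K) → (∀ i < m, F (i + 1) < F i) → m ≤ h

/-- The cone `K` has complexity at most `h`: either it lives in a space of dimension at most `h`, or
its chains of faces have at most `h` steps. (Half-line: `h = 1`; second-order cones and all cones
with a strictly convex base: `h = 2`; positive semidefinite `h × h` matrices: `h`.) -/
def ComplexityLE {V : Type*} [AddCommGroup V] [Module ℝ V] (K : PointedCone ℝ V) (h : ℕ) : Prop :=
  (Module.Finite ℝ V ∧ Module.finrank ℝ V ≤ h) ∨ FaceHeightLE K h

/-! ## Mixed-binary conic programs -/

/-- A mixed-binary conic program with `k` binary quantities and `r` conic constraints, together with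
an affine objective function for every CNF formula on `n` variables. The unknown `x` ranges over an
arbitrary real vector space `W` (so any number of linear equations between unknowns is free), the
constraints are `A i x ∈ K i` (`i < r`) and `z j x ∈ {0,1}` (`j < k`), where `A i`, `z j` are affine
maps. -/
structure MixedProgram (n k r : ℕ) where
  /-- the space of the unknown -/
  W : Type u
  [acgW : AddCommGroup W]
  [modW : Module ℝ W]
  /-- the spaces of the cones -/
  V : Fin r → Type v
  [acgV : ∀ i, AddCommGroup (V i)]
  [modV : ∀ i, Module ℝ (V i)]
  /-- the cones -/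
  K : ∀ i, PointedCone ℝ (V i)
  /-- the affine maps of the conic constraints -/
  A : ∀ i, W →ᵃ[ℝ] V i
  /-- the affine functionals required to be `0` or `1` -/
  z : Fin k → W →ᵃ[ℝ] ℝ
  /-- the objective functions, one for every formula -/
  obj : CNF n → W →ᵃ[ℝ] ℝ

attribute [instance] MixedProgram.acgW MixedProgram.modW MixedProgram.acgV MixedProgram.modV

/-- The feasible set. -/
def MixedProgram.feasible {n k r : ℕ} (P : MixedProgram.{u, v} n k r) : Set P.W :=
  {x | (∀ i, P.A i x ∈ P.K i) ∧ ∀ j, P.z j x = 0 ∨ P.z j x = 1}

/-- `P` solves MAX-2-SAT on `n` variables exactly: every assignment `b` is represented by a feasible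
point `pt b` at which the objective of each 2-CNF formula `φ` equals the number of clauses of `φ`
falsified by `b`, and the objective of `φ` is nowhere on the feasible set smaller than the minimum
number of falsified clauses. (So the minimum of the objective over the feasible set is `minFalse φ`
for every 2-CNF formula `φ`.) -/
def MixedProgram.Solves {n k r : ℕ} (P : MixedProgram.{u, v} n k r) : Prop :=
  (∃ pt : (Fin n → Bool) → P.W, (∀ b, pt b ∈ P.feasible) ∧
    ∀ φ : CNF n, Is2CNF φ → ∀ b, P.obj φ (pt b) = numFalse φ b) ∧
  ∀ φ : CNF n, Is2CNF φ → ∀ x ∈ P.feasible, (minFalse φ : ℝ) ≤ P.obj φ x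

end Pool.Agent.H525R2
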