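import Mathlib
import Pool.Agent.H525R2.ConicDefs

/-!
Faces of pointed cones: the minimal face of a point, chains of faces, dimension bound.
-/

open Finset

namespace Pool.Agent.H525R2

section

variable {V : Type*} [AddCommGroup V] [Module ℝ V]

theorem smulR_mem (K : PointedCone ℝ V) {c : ℝ} (hc : 0 ≤ c) {x : V} (hx : x ∈ K) : c • x ∈ K :=
  PointedCone.smul_mem K hc hx

/-- The minimal face of `K` containing `x`. -/
def faceOf (K : PointedCone ℝ V) (x : V) (hx : x ∈ K) : PointedCone ℝ V where
  carrier := {y | y ∈ K ∧ ∃ e : ℝ, 0 < e ∧ x - e • y ∈ K}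
  zero_mem' := ⟨K.zero_mem, 1, one_pos, by simpa using hx⟩
  add_mem' := by
    rintro y z ⟨hy, e, he, hye⟩ ⟨hz, d, hd, hzd⟩
    refine ⟨K.add_mem hy hz, (e * d) / (e + d), by positivity, ?_⟩
    have h1 := smulR_mem K (c := d / (e + d)) (by positivity) hye
    have h2 := smulR_mem K (c := e / (e + d)) (by positivity) hzd
    have h3 := K.add_mem h1 h2
    have hne : e + d ≠ 0 := by positivity
    have e1 : x - (e * d / (e + d)) • (y + z)
        = (d / (e + d)) • (x - e • y) + (e / (e + d)) • (x - d • z) := by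
      have : x = (d / (e + d) + e / (e + d)) • x := by
        rw [← add_div, add_comm d e, div_self hne, one_smul]
      conv_lhs => rw [this]
      rw [smul_sub, smul_sub, smul_smul, smul_smul, smul_add, add_smul]
      have a1 : d / (e + d) * e = e * d / (e + d) := by ring
      have a2 : e / (e + d) * d = e * d / (e + d) := by ring
      rw [a1, a2]
      abel
    rw [e1]
    exact h3
  smul_mem' := by
    rintro ⟨c, hc⟩ y ⟨hy, e, he, hye⟩
    refine ⟨Submodule.smul_mem K _ hy, ?_⟩
    rcases hc.eq_or_lt with h0 | h0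
    · refine ⟨1, one_pos, ?_⟩
      have : (⟨c, hc⟩ : {c : ℝ // 0 ≤ c}) = 0 := Subtype.ext h0.symm
      rw [this]
      simpa using hx
    · refine ⟨e / c, by positivity, ?_⟩
      have : (e / c) • ((⟨c, hc⟩ : {c : ℝ // 0 ≤ c}) • y) = e • y := by
        change (e / c) • (c • y) = e • y
        rw [smul_smul, div_mul_cancel₀ _ h0.ne']
      rw [this]
      exact hye

theorem mem_faceOf {K : PointedCone ℝ V} {x : V} {hx : x ∈ K} {y : V} :
    y ∈ faceOf K x hx ↔ y ∈ K ∧ ∃ e : ℝ, 0 < e ∧ x - e • y ∈ K := Iff.rfl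

theorem faceOf_isFaceOf (K : PointedCone ℝ V) (x : V) (hx : x ∈ K) :
    (faceOf K x hx).IsFaceOf K where
  le := fun _ h => h.1
  mem_of_smul_add_mem := by
    rintro y z a hy hz ha ⟨_, e, he, h⟩
    refine ⟨hy, e * a, by positivity, ?_⟩
    have := K.add_mem h (smulR_mem K he.le hz)
    have e1 : x - e • (a • y + z) + e • z = x - (e * a) • y := by
      rw [smul_add, smul_smul]; abel
    rw [e1] at this
    exact this

/-- A chain of points and faces bounds the height from below. -/
theorem chain_le_of_faceHeight {K : PointedCone ℝ V} {l : ℕ} (h : FaceHeightLE K l) (m : ℕ)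
    (G : ℕ → PointedCone ℝ V) (hG : ∀ i < m, (G i).IsFaceOf K) (q : ℕ → V)
    (hqK : ∀ i < m, q i ∈ K)
    (hlt : ∀ j < m, ∀ i < j, q j ∈ G i) (hnot : ∀ j < m, q j ∉ G j) : m ≤ l := by
  classical
  -- F k = K ⊓ ⋂_{i<k} G i
  let F : ℕ → PointedCone ℝ V := fun k => Nat.rec K (fun i P => P ⊓ G i) k
  have F0 : F 0 = K := rfl
  have Fs : ∀ k, F (k+1) = F k ⊓ G k := fun k => rfl
  have hface : ∀ k ≤ m, (F k).IsFaceOf K := by
    intro k
    induction k with
    | zero => intro _; exact PointedCone.IsFaceOf.refl K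
    | succ k ih =>
      intro hk
      rw [Fs]
      exact (ih (by omega)).inf_left (hG k (by omega))
  have hmem : ∀ k j, k ≤ j → j < m → q j ∈ F k := by
    intro k
    induction k with
    | zero => intro j _ hj; exact hqK j hj
    | succ k ih =>
      intro j hkj hj
      rw [Fs]
      exact ⟨ih j (by omega) hj, hlt j hj k (by omega)⟩
  apply h m F hface
  intro i hi
  rw [Fs]
  refine lt_of_le_of_ne inf_le_left ?_
  intro heq
  have h1 := hmem i i le_rfl hi
  rw [← heq] at h1
  exact hnot i hi h1.2

/-- A face is the intersection of the cone with its linear span. -/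
theorem mem_face_of_mem_span {K F : PointedCone ℝ V} (hF : F.IsFaceOf K) {y : V} (hy : y ∈ K)
    (hs : y ∈ Submodule.span ℝ (F : Set V)) : y ∈ F := by
  -- every element of the span is a difference of two elements of F
  have key : ∃ u ∈ F, ∃ v ∈ F, y = u - v := by
    refine Submodule.span_induction (p := fun y _ => ∃ u ∈ F, ∃ v ∈ F, y = u - v) ?_ ?_ ?_ ?_ hs
    · intro x hx; exact ⟨x, hx, 0, F.zero_mem, by simp⟩
    · exact ⟨0, F.zero_mem, 0, F.zero_mem, by simp⟩
    · rintro x z _ _ ⟨u, hu, v, hv, rfl⟩ ⟨u', hu', v', hv', rfl⟩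
      exact ⟨u + u', F.add_mem hu hu', v + v', F.add_mem hv hv', by abel⟩
    · rintro a x _ ⟨u, hu, v, hv, rfl⟩
      rcases le_total 0 a with ha | ha
      · exact ⟨a • u, smulR_mem F ha hu, a • v, smulR_mem F ha hv, by rw [smul_sub]⟩
      · refine ⟨(-a) • v, smulR_mem F (by linarith) hv, (-a) • u, smulR_mem F (by linarith) hu, ?_⟩
        rw [smul_sub, neg_smul, neg_smul]; abel
  obtain ⟨u, hu, v, hv, rfl⟩ := key
  exact hF.mem_of_add_mem_left hy (hF.le hv) (by simpa using hu)

/-- In a space of dimension at most `l` every chain of faces has at most `l` steps. -/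
theorem faceHeightLE_of_finrank [Module.Finite ℝ V] (K : PointedCone ℝ V) {l : ℕ}
    (hl : Module.finrank ℝ V ≤ l) : FaceHeightLE K l := by
  intro m F hF hlt
  have hstep : ∀ i < m, Module.finrank ℝ (Submodule.span ℝ (F (i+1) : Set V)) <
      Module.finrank ℝ (Submodule.span ℝ (F i : Set V)) := by
    intro i hi
    apply Submodule.finrank_lt_finrank_of_lt
    refine lt_of_le_of_ne (Submodule.span_mono (hlt i hi).le) ?_
    intro heq
    apply (hlt i hi).ne
    apply le_antisymm (hlt i hi).le
    intro y hy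
    apply mem_face_of_mem_span (hF (i+1) (by omega)) ((hF i (by omega)).le hy)
    rw [heq]
    exact Submodule.subset_span hy
  have hsum : ∀ k ≤ m, Module.finrank ℝ (Submodule.span ℝ (F k : Set V)) + k ≤
      Module.finrank ℝ V := by
    intro k
    induction k with
    | zero => intro _; simpa using Submodule.finrank_le _
    | succ k ih =>
      intro hk
      have := ih (by omega)
      have := hstep k (by omega)
      omega
  have := hsum m le_rfl
  omega

end

end Pool.Agent.H525R2
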