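import Mathlib
import Pool.Agent.H525R2.ConicDefs
import Pool.Agent.H525R2.Comb
import Pool.Agent.H525R2.Faces

/-!
MAX-2-SAT and exact mixed-binary conic programs.
-/

open Finset

namespace Pool.Agent.H525R2

universe u v

/-! ### The formulas `fml a` -/

/-- the index set as a set of variables -/
def idx (n : ℕ) (a : Finset ℕ) : Finset (Fin n) := univ.filter (fun i : Fin n => (i : ℕ) ∈ a)

/-- `fml a`: the clauses `x_i` (`i ∈ a`) and `¬x_i ∨ ¬x_j` (`i ≠ j ∈ a`). -/
def fml (n : ℕ) (a : Finset ℕ) : CNF n :=
  (idx n a).image (fun i => {(i, true)}) ∪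
    ((idx n a).powersetCard 2).image (fun s => s.image (fun i => (i, false)))

def asg (n : ℕ) (b : Finset ℕ) : Fin n → Bool := fun i => decide ((i : ℕ) ∈ b)

theorem fml_is2CNF (n : ℕ) (a : Finset ℕ) : Is2CNF (fml n a) := by
  intro C hC
  rw [fml, mem_union, mem_image, mem_image] at hC
  rcases hC with ⟨i, _, rfl⟩ | ⟨s, hs, rfl⟩
  · simp
  · rw [mem_powersetCard] at hs
    exact card_image_le.trans hs.2.le

theorem numFalse_fml (n : ℕ) (a : Finset ℕ) (β : Fin n → Bool) :
    numFalse (fml n a) β = ((idx n a).filter (fun i => β i = false)).card +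
      (((idx n a).filter (fun i => β i = true)).card).choose 2 := by
  unfold numFalse fml
  rw [filter_union, card_union_of_disjoint]
  · congr 1
    · rw [filter_image, card_image_of_injective]
      · congr 1
        ext i
        simp only [mem_filter, mem_singleton, forall_eq, ne_eq, Bool.not_eq_true]
      · intro i j h
        simpa using h
    · rw [filter_image, card_image_of_injective]
      · rw [← card_powersetCard]
        congr 1
        ext s
        simp only [mem_filter, mem_powersetCard, mem_image, forall_exists_index, and_imp]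
        constructor
        · rintro ⟨⟨h1, h2⟩, h3⟩
          refine ⟨fun i hi => ?_, h2⟩
          rw [mem_filter]
          refine ⟨h1 hi, ?_⟩
          have := h3 _ i hi rfl
          simpa using this
        · rintro ⟨h1, h2⟩
          refine ⟨⟨fun i hi => (mem_filter.1 (h1 hi)).1, h2⟩, ?_⟩
          rintro l i hi rfl
          have := (mem_filter.1 (h1 hi)).2
          simp [this]
      · apply image_injective
        intro i j h
        simpa using h
  · rw [disjoint_left]
    intro C h1 h2
    rw [mem_filter, mem_image] at h1 h2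
    obtain ⟨⟨i, _, rfl⟩, _⟩ := h1
    obtain ⟨⟨s, hs, h⟩, _⟩ := h2
    rw [mem_powersetCard] at hs
    have hinj : Function.Injective (fun i : Fin n => (i, false)) := by
      intro i j h
      simpa using h
    have := congrArg Finset.card h
    rw [card_image_of_injective _ hinj] at this
    simp at this
    omega

theorem le_choose_two (t : ℕ) : t ≤ t.choose 2 + 1 := by
  induction t with
  | zero => simp
  | succ t ih =>
    rw [Nat.choose_succ_succ' t 1]
    simp

theorem minFalse_fml (n : ℕ) (a : Finset ℕ) : (idx n a).card ≤ minFalse (fml n a) + 1 := by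
  obtain ⟨β, hβ⟩ : ∃ β, minFalse (fml n a) = numFalse (fml n a) β := by
    have := Nat.sInf_mem (s := Set.range (fun b => numFalse (fml n a) b)) ⟨_, ⟨fun _ => true, rfl⟩⟩
    obtain ⟨β, hβ⟩ := this
    exact ⟨β, hβ.symm⟩
  rw [hβ, numFalse_fml]
  have h1 : (idx n a).card = ((idx n a).filter (fun i => β i = false)).card +
      ((idx n a).filter (fun i => β i = true)).card := by
    rw [← card_union_of_disjoint]
    · congr 1
      ext i
      simp only [mem_union, mem_filter]
      cases β i <;> simp
    · rw [disjoint_left]
      intro i h1 h2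
      rw [mem_filter] at h1 h2
      rw [h1.2] at h2
      exact absurd h2.2 (by simp)
  have := le_choose_two ((idx n a).filter (fun i => β i = true)).card
  omega

theorem card_idx_filter (n : ℕ) {a b : Finset ℕ} (ha : a ⊆ range n) :
    ((idx n a).filter (fun i => asg n b i = true)).card = (a ∩ b).card := by
  have : ((idx n a).filter (fun i => asg n b i = true)).map Fin.valEmbedding = a ∩ b := by
    ext x
    simp only [mem_map, mem_filter, idx, asg, mem_univ, true_and, decide_eq_true_eq,
      Fin.valEmbedding_apply, mem_inter]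
    constructor
    · rintro ⟨i, ⟨h1, h2⟩, rfl⟩
      exact ⟨h1, h2⟩
    · rintro ⟨h1, h2⟩
      exact ⟨⟨x, mem_range.1 (ha h1)⟩, ⟨h1, h2⟩, rfl⟩
  rw [← this, card_map]

theorem numFalse_fml_asg (n : ℕ) {a b : Finset ℕ} (ha : a ⊆ range n) :
    numFalse (fml n a) (asg n b) + (a ∩ b).card = (idx n a).card + ((a ∩ b).card).choose 2 := by
  rw [numFalse_fml, card_idx_filter n ha]
  have h1 : (idx n a).card = ((idx n a).filter (fun i => asg n b i = false)).card +
      ((idx n a).filter (fun i => asg n b i = true)).card := by
    rw [← card_union_of_disjoint]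
    · congr 1
      ext i
      simp only [mem_union, mem_filter]
      cases asg n b i <;> simp
    · rw [disjoint_left]
      intro i h1 h2
      rw [mem_filter] at h1 h2
      rw [h1.2] at h2
      exact absurd h2.2 (by simp)
  rw [card_idx_filter n ha] at h1
  omega

/-! ### The number of disjoint pairs -/

/-- the pairs of disjoint subsets of `{0,…,n-1}` -/
def disjPairs (n : ℕ) : Finset (Finset ℕ × Finset ℕ) :=
  ((range n).powerset ×ˢ (range n).powerset).filter (fun p => Disjoint p.1 p.2)

theorem card_disjPairs (n : ℕ) : (disjPairs n).card = 3 ^ n := by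
  have h := Finset.sum_pow_mul_eq_add_pow (1 : ℕ) 2 (range n)
  have h2 : (disjPairs n).card = ∑ a ∈ (range n).powerset, 1 ^ a.card * 2 ^ ((range n).card - a.card) := by
    rw [disjPairs, card_filter, sum_product]
    apply Finset.sum_congr rfl
    intro a ha
    rw [mem_powerset] at ha
    rw [← card_filter, one_pow, one_mul, ← card_sdiff_of_subset ha, ← card_powerset]
    congr 1
    ext b
    simp only [mem_filter, mem_powerset]
    constructor
    · rintro ⟨h1, h2⟩ x hx
      rw [mem_sdiff]
      exact ⟨h1 hx, fun h => disjoint_left.1 h2 h hx⟩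
    · intro h1
      refine ⟨fun x hx => (mem_sdiff.1 (h1 hx)).1, ?_⟩
      rw [disjoint_left]
      intro x hx hx2
      exact (mem_sdiff.1 (h1 hx2)).2 hx
  rw [h2, h, card_range]

/-! ### Affine maps and weighted means -/

theorem affine_mean {W V : Type*} [AddCommGroup W] [Module ℝ W] [AddCommGroup V] [Module ℝ V]
    (f : W →ᵃ[ℝ] V) {ι : Type*} (s : Finset ι) (hs : s.Nonempty) (p : ι → W) :
    f ((1 / (s.card : ℝ)) • ∑ b ∈ s, p b) = (1 / (s.card : ℝ)) • ∑ b ∈ s, f (p b) := by
  have hdec : ∀ x, f x = f.linear x + f 0 := by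
    intro x
    have := congrFun f.decomp x
    simpa using this
  have hc : (s.card : ℝ) ≠ 0 := by
    exact_mod_cast (card_pos.2 hs).ne'
  have h1 : ∑ b ∈ s, f (p b) = f.linear (∑ b ∈ s, p b) + (s.card : ℝ) • f 0 := by
    rw [map_sum]
    rw [Finset.sum_congr rfl (fun b _ => hdec (p b)), Finset.sum_add_distrib, Finset.sum_const]
    congr 1
    rw [Nat.cast_smul_eq_nsmul]
  rw [hdec, h1, smul_add, smul_smul, one_div_mul_cancel hc, one_smul, map_smul]

theorem affine_ext {W V : Type*} [AddCommGroup W] [Module ℝ W] [AddCommGroup V] [Module ℝ V]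
    (f : W →ᵃ[ℝ] V) (x y : W) (e : ℝ) :
    f ((1 + e) • x - e • y) = (1 + e) • f x - e • f y := by
  have hdec : ∀ x, f x = f.linear x + f 0 := by
    intro x
    have := congrFun f.decomp x
    simpa using this
  rw [hdec ((1 + e) • x - e • y), hdec x, hdec y, map_sub, map_smul, map_smul, smul_add, smul_add,
    add_smul 1 e (f 0), one_smul]
  abel

end Pool.Agent.H525R2
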