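import Mathlib
import Pool.Agent.H525R2.MaxTwoSat

open Finset

namespace Pool.Agent.H525R2

universe u v

theorem boundF_one (n : ℕ) : boundF 1 n = 2 ^ n := by simp [boundF]

theorem exists_common_pos {r : ℕ} (e : Fin r → ℝ) (he : ∀ i, 0 < e i) :
    ∃ d : ℝ, 0 < d ∧ ∀ i, d ≤ e i := by
  classical
  rcases isEmpty_or_nonempty (Fin r) with h | h
  · exact ⟨1, one_pos, fun i => h.elim i⟩
  · obtain ⟨i, hi⟩ := Finite.exists_min e
    exact ⟨e i, he i, hi⟩

/-- Main inequality, with face heights. -/
theorem main_bound {n k r : ℕ} (P : MixedProgram.{u, v} n k r) (ht : Fin r → ℕ)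
    (hht : ∀ i, FaceHeightLE (P.K i) (ht i)) (hP : P.Solves) :
    3 ^ n ≤ 2 ^ k * (2 ^ n + ∑ i, boundF (ht i) n) := by
  classical
  obtain ⟨⟨pt, hfeas, hval⟩, hexact⟩ := hP
  -- branches
  let Bs : (Fin k → Bool) → Finset ℕ → Prop := fun s b =>
    ∀ j, P.z j (pt (asg n b)) = if s j then 1 else 0
  let N : (Fin k → Bool) → Finset ℕ → Finset (Finset ℕ) := fun s a =>
    (range n).powerset.filter (fun b => (a ∩ b).card = 1 ∧ Bs s b)
  let xc : (Fin k → Bool) → Finset ℕ → P.W := fun s a =>
    (1 / ((N s a).card : ℝ)) • ∑ b ∈ N s a, pt (asg n b)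
  have hxK : ∀ s a, (N s a).Nonempty → ∀ i, P.A i (xc s a) ∈ P.K i := by
    intro s a hne i
    have : P.A i (xc s a) = (1 / ((N s a).card : ℝ)) • ∑ b ∈ N s a, P.A i (pt (asg n b)) :=
      affine_mean (P.A i) (N s a) hne (fun b => pt (asg n b))
    rw [this]
    apply smulR_mem _ (by positivity)
    exact Submodule.sum_mem _ (fun b _ => (hfeas (asg n b)).1 i)
  -- the face belonging to a row
  let G : (Fin k → Bool) → Finset ℕ → ∀ i, PointedCone ℝ (P.V i) := fun s a i =>
    if h : (N s a).Nonempty then faceOf (P.K i) (P.A i (xc s a)) (hxK s a h i) else P.K i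
  have hGface : ∀ s a i, (G s a i).IsFaceOf (P.K i) := by
    intro s a i
    by_cases h : (N s a).Nonempty
    · simp only [G, h, dif_pos]
      exact faceOf_isFaceOf _ _ _
    · simp only [G, h, dif_neg, not_false_iff]
      exact PointedCone.IsFaceOf.refl _
  -- zero pattern: pairs meeting in one point
  have hzero : ∀ s a b i, b ⊆ range n → (a ∩ b).card = 1 → Bs s b →
      P.A i (pt (asg n b)) ∈ G s a i := by
    intro s a b i hb hab hs
    have hbN : b ∈ N s a := by
      simp only [N, mem_filter, mem_powerset]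
      exact ⟨hb, hab, hs⟩
    have hne : (N s a).Nonempty := ⟨b, hbN⟩
    simp only [G, hne, dif_pos]
    rw [mem_faceOf]
    have hc : (0 : ℝ) < 1 / ((N s a).card : ℝ) := by
      have : 0 < (N s a).card := card_pos.2 hne
      positivity
    refine ⟨(hfeas (asg n b)).1 i, 1 / ((N s a).card : ℝ), hc, ?_⟩
    have : P.A i (xc s a) = (1 / ((N s a).card : ℝ)) • ∑ b ∈ N s a, P.A i (pt (asg n b)) :=
      affine_mean (P.A i) (N s a) hne (fun b => pt (asg n b))
    rw [this, ← Finset.add_sum_erase _ _ hbN, smul_add, add_sub_cancel_left]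
    apply smulR_mem _ hc.le
    exact Submodule.sum_mem _ (fun b _ => (hfeas (asg n b)).1 i)
  -- positivity at disjoint pairs
  have hpos : ∀ s a b, a ⊆ range n → b ⊆ range n → Disjoint a b → Bs s b → (N s a).Nonempty →
      ∃ i, P.A i (pt (asg n b)) ∉ G s a i := by
    intro s a b ha hb hab hs hne
    by_contra hcon
    push Not at hcon
    have hcon' : ∀ i, ∃ e : ℝ, 0 < e ∧
        P.A i (xc s a) - e • P.A i (pt (asg n b)) ∈ P.K i := by
      intro i
      have := hcon i
      simp only [G, hne, dif_pos] at this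
      exact this.2
    choose e he hmem using hcon'
    obtain ⟨d, hd, hde⟩ := exists_common_pos e he
    -- the point beyond
    set y : P.W := (1 + d) • xc s a - d • pt (asg n b) with hy
    have hyfeas : y ∈ P.feasible := by
      constructor
      · intro i
        rw [hy, affine_ext]
        have h1 : (1 + d) • P.A i (xc s a) - d • P.A i (pt (asg n b)) =
            (P.A i (xc s a) - e i • P.A i (pt (asg n b))) + (d • P.A i (xc s a)
              + (e i - d) • P.A i (pt (asg n b))) := by
          rw [add_smul, one_smul, sub_smul]; abel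
        rw [h1]
        refine (P.K i).add_mem (hmem i) ((P.K i).add_mem (smulR_mem _ hd.le (hxK s a hne i)) ?_)
        exact smulR_mem _ (by linarith [hde i]) ((hfeas (asg n b)).1 i)
      · intro j
        have hz1 : P.z j (xc s a) = if s j then 1 else 0 := by
          have : P.z j (xc s a) = (1 / ((N s a).card : ℝ)) • ∑ b ∈ N s a, P.z j (pt (asg n b)) :=
            affine_mean (P.z j) (N s a) hne (fun b => pt (asg n b))
          rw [this]
          have h2 : ∀ b ∈ N s a, P.z j (pt (asg n b)) = if s j then 1 else 0 := by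
            intro b hb
            simp only [N, mem_filter] at hb
            exact hb.2.2 j
          rw [Finset.sum_congr rfl h2, Finset.sum_const, nsmul_eq_mul, smul_eq_mul]
          have hc : ((N s a).card : ℝ) ≠ 0 := by
            exact_mod_cast (card_pos.2 hne).ne'
          field_simp
        rw [hy, affine_ext, hz1, hs j]
        by_cases h : s j = true
        · right; simp [h]
        · left; simp [h]
    have h2cnf := fml_is2CNF n a
    have hex := hexact (fml n a) h2cnf y hyfeas
    rw [hy, affine_ext] at hex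
    have hobjx : P.obj (fml n a) (xc s a) = ((idx n a).card : ℝ) - 1 := by
      have : P.obj (fml n a) (xc s a) =
          (1 / ((N s a).card : ℝ)) • ∑ b ∈ N s a, P.obj (fml n a) (pt (asg n b)) :=
        affine_mean (P.obj (fml n a)) (N s a) hne (fun b => pt (asg n b))
      rw [this]
      have h2 : ∀ b ∈ N s a, P.obj (fml n a) (pt (asg n b)) = ((idx n a).card : ℝ) - 1 := by
        intro b hb
        simp only [N, mem_filter, mem_powerset] at hb
        rw [hval _ h2cnf]
        have h3 := numFalse_fml_asg n (b := b) ha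
        rw [hb.2.1] at h3
        have h4 : (Nat.choose 1 2) = 0 := rfl
        rw [h4] at h3
        have h5 : ((numFalse (fml n a) (asg n b) : ℕ) : ℝ) + 1 = ((idx n a).card : ℝ) := by
          exact_mod_cast h3
        linarith
      rw [Finset.sum_congr rfl h2, Finset.sum_const, nsmul_eq_mul, smul_eq_mul]
      have hc : ((N s a).card : ℝ) ≠ 0 := by
        exact_mod_cast (card_pos.2 hne).ne'
      field_simp
    have hobjb : P.obj (fml n a) (pt (asg n b)) = ((idx n a).card : ℝ) := by
      rw [hval _ h2cnf]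
      have h3 := numFalse_fml_asg n (b := b) ha
      rw [disjoint_iff_inter_eq_empty.1 hab, card_empty] at h3
      have h4 : (Nat.choose 0 2) = 0 := rfl
      rw [h4] at h3
      exact_mod_cast h3
    have hmin := minFalse_fml n a
    have hmin' : ((idx n a).card : ℝ) ≤ minFalse (fml n a) + 1 := by exact_mod_cast hmin
    rw [hobjx, hobjb] at hex
    simp only [smul_eq_mul] at hex
    nlinarith
  -- the patterns
  let Pos0 : (Fin k → Bool) → Finset ℕ → Finset ℕ → Prop := fun s a b => Bs s b ∧ ¬ (N s a).Nonempty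
  let PosI : (Fin k → Bool) → Fin r → Finset ℕ → Finset ℕ → Prop := fun s i a b =>
    Bs s b ∧ (N s a).Nonempty ∧ P.A i (pt (asg n b)) ∉ G s a i
  let D0 : (Fin k → Bool) → Finset (Finset ℕ × Finset ℕ) := fun s =>
    (disjPairs n).filter (fun p => Pos0 s p.1 p.2)
  let DI : (Fin k → Bool) → Fin r → Finset (Finset ℕ × Finset ℕ) := fun s i =>
    (disjPairs n).filter (fun p => PosI s i p.1 p.2)
  have hdp : ∀ p ∈ disjPairs n, p.1 ⊆ range n ∧ p.2 ⊆ range n ∧ Disjoint p.1 p.2 := by
    intro p hp
    rw [disjPairs, mem_filter, mem_product, mem_powerset, mem_powerset] at hp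
    exact ⟨hp.1.1, hp.1.2, hp.2⟩
  have hD0 : ∀ s, (D0 s).card ≤ 2 ^ n := by
    intro s
    rw [← boundF_one]
    apply count_bound n 1 (Pos0 s)
    · intro p hp
      have hp' := mem_filter.1 hp
      obtain ⟨h1, h2, h3⟩ := hdp p hp'.1
      exact ⟨h1, h2, h3, hp'.2⟩
    · rintro a b ha hb hab ⟨hs, hN⟩
      apply hN
      refine ⟨b, ?_⟩
      simp only [N, mem_filter, mem_powerset]
      exact ⟨hb, hab, hs⟩
    · intro m t ht
      by_contra hm
      push Not at hm
      have h0 := (mem_filter.1 (ht.1 0 (by omega))).2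
      have h1 := (mem_filter.1 (ht.1 1 hm)).2
      exact ht.2 1 hm 0 (by omega) ⟨h1.1, h0.2⟩
  have hDI : ∀ s i, (DI s i).card ≤ boundF (ht i) n := by
    intro s i
    apply count_bound n (ht i) (PosI s i)
    · intro p hp
      have hp' := mem_filter.1 hp
      obtain ⟨h1, h2, h3⟩ := hdp p hp'.1
      exact ⟨h1, h2, h3, hp'.2⟩
    · rintro a b ha hb hab ⟨hs, hN, hG⟩
      exact hG (hzero s a b i hb hab hs)
    · intro m t ht'
      have hm : ∀ j < m, PosI s i (t j).1 (t j).2 := fun j hj => (mem_filter.1 (ht'.1 j hj)).2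
      apply chain_le_of_faceHeight (hht i) m (fun j => G s (t j).1 i) (fun j _ => hGface _ _ _)
        (fun j => P.A i (pt (asg n (t j).2)))
      · intro j _
        exact (hfeas _).1 i
      · intro j hj j' hj'
        by_contra hcon
        exact ht'.2 j hj j' hj' ⟨(hm j hj).1, (hm j' (by omega)).2.1, hcon⟩
      · intro j hj
        exact (hm j hj).2.2
  -- covering
  have hcov : disjPairs n ⊆ univ.biUnion (fun s : Fin k → Bool =>
      D0 s ∪ univ.biUnion (fun i : Fin r => DI s i)) := by
    intro p hp
    obtain ⟨h1, h2, h3⟩ := hdp p hp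
    rw [mem_biUnion]
    refine ⟨fun j => decide (P.z j (pt (asg n p.2)) = 1), mem_univ _, ?_⟩
    set s : Fin k → Bool := fun j => decide (P.z j (pt (asg n p.2)) = 1) with hsdef
    have hs : Bs s p.2 := by
      intro j
      rcases (hfeas (asg n p.2)).2 j with h | h
      · have : s j = false := by simp [hsdef, h]
        rw [this, h]; simp
      · have : s j = true := by simp [hsdef, h]
        rw [this, h]; simp
    rw [mem_union]
    by_cases hne : (N s p.1).Nonempty
    · right
      obtain ⟨i, hi⟩ := hpos s p.1 p.2 h1 h2 h3 hs hne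
      rw [mem_biUnion]
      exact ⟨i, mem_univ _, mem_filter.2 ⟨hp, hs, hne, hi⟩⟩
    · left
      exact mem_filter.2 ⟨hp, hs, hne⟩
  calc 3 ^ n = (disjPairs n).card := (card_disjPairs n).symm
    _ ≤ _ := card_le_card hcov
    _ ≤ ∑ s : Fin k → Bool, (D0 s ∪ univ.biUnion (fun i : Fin r => DI s i)).card :=
        card_biUnion_le
    _ ≤ ∑ s : Fin k → Bool, (2 ^ n + ∑ i, boundF (ht i) n) := by
        apply Finset.sum_le_sum
        intro s _
        refine (card_union_le _ _).trans (add_le_add (hD0 s) ?_)
        exact card_biUnion_le.trans (Finset.sum_le_sum (fun i _ => hDI s i))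
    _ = 2 ^ k * (2 ^ n + ∑ i, boundF (ht i) n) := by
        rw [Finset.sum_const, card_univ]
        simp

end Pool.Agent.H525R2
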